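import Pool.Agent.H80.PK.KStmts

/-!
Row SUM of the board pkt (helper88).
-/

set_option autoImplicit false

namespace Pool.PK

open Filter Topology

theorem SUM : SUMStmt := by
  intro A _ _ _ y hy
  have h0 : Tendsto (fun k : ℕ => ‖y ^ k‖) atTop (𝓝 0) := by
    have := hy.norm
    rwa [norm_zero] at this
  obtain ⟨m0, hm0⟩ := (h0.eventually (gt_mem_nhds (by norm_num : (0 : ℝ) < 1 / 2))).exists_forall_of_atTop
  set m : ℕ := m0 + 1 with hm
  have hm1 : ‖y ^ m‖ < 1 / 2 := hm0 m (by omega)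
  have hmpos : 0 < m := Nat.succ_pos m0
  obtain ⟨M, hM⟩ := h0.bddAbove_range
  have hM' : ∀ k, ‖y ^ k‖ ≤ |M| + 1 := fun k => by
    have := hM ⟨k, rfl⟩
    have h2 := le_abs_self M
    simp only at this
    linarith
  have hMp : 0 < |M| + 1 := by positivity
  set ρ : ℝ := (1 / 2 : ℝ) ^ ((m : ℝ)⁻¹) with hρ
  have hρ0 : 0 < ρ := Real.rpow_pos_of_pos (by norm_num) _
  have hρ1 : ρ < 1 := Real.rpow_lt_one (by norm_num) (by norm_num) (by positivity)
  have hρm : ρ ^ m = 1 / 2 := Real.rpow_inv_natCast_pow (by norm_num) hmpos.ne'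
  have key : ∀ q j, ‖y ^ (m * q + j)‖ ≤ (1 / 2) ^ q * (|M| + 1) := by
    intro q j
    induction q with
    | zero => simpa using hM' j
    | succ q ih =>
      have e : y ^ (m * (q + 1) + j) = y ^ m * y ^ (m * q + j) := by
        rw [← pow_add]
        congr 1
        ring
      rw [e]
      calc ‖y ^ m * y ^ (m * q + j)‖ ≤ ‖y ^ m‖ * ‖y ^ (m * q + j)‖ := norm_mul_le _ _
        _ ≤ (1 / 2) * ((1 / 2) ^ q * (|M| + 1)) :=
            mul_le_mul hm1.le ih (norm_nonneg _) (by norm_num)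
        _ = (1 / 2) ^ (q + 1) * (|M| + 1) := by rw [pow_succ]; ring
  refine ⟨2 * (|M| + 1), ρ, by positivity, hρ0, hρ1, fun k => ?_⟩
  have h1 := key (k / m) (k % m)
  rw [Nat.div_add_mod] at h1
  refine h1.trans ?_
  have h2 : (1 / 2 : ℝ) ^ (k / m + 1) ≤ ρ ^ k := by
    rw [← hρm, ← pow_mul]
    apply pow_le_pow_of_le_one hρ0.le hρ1.le
    have := Nat.lt_div_mul_add hmpos (a := k)
    nlinarith
  rw [pow_succ] at h2
  nlinarith

end Pool.PK
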